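import Pool.Agent.LorBall.Reduction

/-! # Normalised spaces of Lorentzian polynomials over a cone are closed balls -/

open Set Filter Topology Function MvPolynomial

namespace Pool.Agent.Results.MP_be554d_co.ClosedBall

open LorBall

/-- closed balls of finite-dimensional inner product spaces are standard balls -/
theorem ball_homeo {E : Type*} [NormedAddCommGroup E] [InnerProductSpace ℝ E]
    [FiniteDimensional ℝ E] (p : E) (r : ℝ) (hr : 0 < r) :
    Nonempty (Metric.closedBall p r ≃ₜ
      Metric.closedBall (0 : EuclideanSpace ℝ (Fin (Module.finrank ℝ E))) 1) := by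
  let e := (stdOrthonormalBasis ℝ E).repr
  let h : E ≃ₜ EuclideanSpace ℝ (Fin (Module.finrank ℝ E)) :=
    ((Homeomorph.subRight p).trans (Homeomorph.smulOfNeZero r⁻¹ (inv_ne_zero hr.ne'))).trans
      e.toHomeomorph
  refine ⟨h.subtype ?_⟩
  intro x
  have h1 : h x = e (r⁻¹ • (x - p)) := rfl
  rw [h1, mem_closedBall_iff_norm, mem_closedBall_zero_iff, e.norm_map, norm_smul,
    Real.norm_of_nonneg (inv_nonneg.2 hr.le), inv_mul_eq_div, div_le_one hr]

theorem PL_zero {n : ℕ} (K : Set (Fin n → ℝ)) (v : Fin n → ℝ) :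
    PL K 0 v = {fun μ => coeff μ (1 : MvPolynomial (Fin n) ℝ)} := by
  ext c
  constructor
  · rintro ⟨f, hf, hfv, rfl⟩
    have h3 := (totalDegree_zero_iff_isHomogeneous (p := f)).2 hf.homog
    rw [totalDegree_eq_zero_iff_eq_C] at h3
    rw [h3, eval_C] at hfv
    rw [hfv, C_1] at h3
    rw [h3]
    rfl
  · rintro rfl
    refine ⟨1, ⟨isHomogeneous_one _ _, ?_, ?_, ?_⟩, map_one _, rfl⟩
    · intro _
      rw [map_one]
      exact zero_le_one
    · intro h
      omega
    · intro h
      omega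

/-- **Main theorem.** Let `K ⊆ ℝⁿ` be an open convex cone, `v ∈ K` and `d ≥ 0`. If `K ≠ ℝⁿ` (or
`d = 0`), then the space of the `K`-Lorentzian polynomials `f` of degree `d` with `f(v) = 1` is
homeomorphic to a closed Euclidean ball; in the remaining degenerate case `K = ℝⁿ`, `d ≥ 1` this
space is empty. -/
theorem result (n d : ℕ) (K : Set (Fin n → ℝ)) (hopen : IsOpen K) (hconv : Convex ℝ K)
    (hcone : ∀ x ∈ K, ∀ r : ℝ, 0 < r → r • x ∈ K) (v : Fin n → ℝ) (hv : v ∈ K) :
    (K ≠ univ ∨ d = 0 →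
      ∃ N : ℕ, Nonempty (PL K d v ≃ₜ Metric.closedBall (0 : EuclideanSpace ℝ (Fin N)) 1)) ∧
    (K = univ → 1 ≤ d → PL K d v = ∅) := by
  constructor
  · rintro (hne | rfl)
    · have hK : OC K := ⟨hopen, hconv, hcone⟩
      obtain ⟨m, ⟨R⟩⟩ := hK.exists_red hne hv
      obtain ⟨g⟩ := PL_homeo R d
      obtain ⟨p, r, hr, ⟨g'⟩⟩ := QS_ball R.good d
      obtain ⟨g''⟩ := ball_homeo p r hr
      exact ⟨_, ⟨(g.symm.trans g').trans g''⟩⟩
    · refine ⟨0, ?_⟩
      rw [PL_zero]
      have h1 : Unique (Metric.closedBall (0 : EuclideanSpace ℝ (Fin 0)) 1) :=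
        { default := ⟨0, Metric.mem_closedBall_self zero_le_one⟩
          uniq := fun x => Subtype.ext (Subsingleton.elim _ _) }
      exact ⟨Homeomorph.homeomorphOfUnique _ _⟩
  · rintro rfl hd
    rw [eq_empty_iff_forall_notMem]
    rintro c ⟨f, hf, -, -⟩
    obtain ⟨k, rfl⟩ : ∃ k, d = k + 1 := ⟨d - 1, by omega⟩
    have h1 := hf.pos hd (v :: List.replicate k v) (by simp) (fun _ _ => mem_univ _)
    have h2 := hf.pos hd ((-1 : ℝ) • v :: List.replicate k v) (by simp) (fun _ _ => mem_univ _)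
    have h3 : numD ((-1 : ℝ) • v :: List.replicate k v) f =
        - numD (v :: List.replicate k v) f := by
      unfold numD
      change constantCoeff (dirD ((-1 : ℝ) • v) (iterD (List.replicate k v) f)) =
        - constantCoeff (dirD v (iterD (List.replicate k v) f))
      rw [dirD_left_smul, smul_eq_C_mul, map_mul, constantCoeff_C]
      ring
    rw [h3] at h2
    linarith

end Pool.Agent.Results.MP_be554d_co.ClosedBall
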